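import Pool.Agent.helper59.BR.SpecH

/-! # Row brh:HBP (MP_baa4d7_al, project BR): Bessel's inequality -/

set_option autoImplicit false

namespace Pool.Agent.BR

open Pool.Agent.helper58.DC Pool.Agent.DI Pool.Agent.GR Pool.Agent.OB Pool.Agent.DR Pool.Agent.FI Pool.Agent.FI3 Pool.Agent.FI4 Pool.Agent.LE

open Classical in
theorem HBP_fs (Q : Type) [Fintype Q] (s : Set Q) (w : Q → ℝ) :
    ∑ᶠ u' ∈ s, w u' = ∑ u', if u' ∈ s then w u' else 0 := by
  rw [finsum_mem_def, finsum_eq_sum_of_fintype]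
  refine Finset.sum_congr rfl fun u _ => ?_
  rw [Set.indicator_apply]

theorem HBP_nm (z : ℂ) : ((‖z‖ ^ 2 : ℝ) : ℂ) = z * (starRingEnd ℂ) z := by
  rw [Complex.mul_conj, Complex.normSq_eq_norm_sq]

theorem HBP : HBP_stmt := by
  classical
  intro B _ Q _ r w a b₀ h0 h1 h2 h3 h4
  obtain ⟨c, hc⟩ : ∃ c : Q → ℝ, c = fun u => ∑ b, ‖a u b‖ ^ 2 := ⟨_, rfl⟩
  have hc0 : ∀ u, 0 ≤ c u := by
    intro u
    rw [hc]
    exact Finset.sum_nonneg fun b _ => by positivity
  have hac : ∀ u, a u b₀ = (c u : ℂ) := by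
    intro u
    rw [← h4 u, hc]
    simp only []
    rw [Complex.ofReal_sum]
    exact Finset.sum_congr rfl fun b _ => (HBP_nm _).symm
  obtain ⟨A, hA⟩ : ∃ A : B → ℂ, A = fun b => ∑ u, (w u : ℂ) * a u b := ⟨_, rfl⟩
  obtain ⟨s, hs⟩ : ∃ s : ℝ, s = ∑ u, w u * c u := ⟨_, rfl⟩
  have hs0 : 0 ≤ s := by
    rw [hs]
    exact Finset.sum_nonneg fun u _ => mul_nonneg (h0 u) (hc0 u)
  have hAb : A b₀ = (s : ℂ) := by
    rw [hA, hs]
    simp only []
    rw [Complex.ofReal_sum]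
    refine Finset.sum_congr rfl fun u _ => ?_
    rw [hac, Complex.ofReal_mul]
  have hin : ∀ u u', ∑ b, a u b * (starRingEnd ℂ) (a u' b) = if r u u' then (c u : ℂ) else 0 := by
    intro u u'
    by_cases h : r u u'
    · rw [if_pos h, h2 u u' h, h4, hac]
    · rw [if_neg h, h3 u u' h]
  have hw : ∀ u, ∑ u', (if r u u' then (w u' : ℂ) else 0) = 1 := by
    intro u
    have h5 := h1 u
    rw [HBP_fs] at h5
    have h6 : ((∑ u', if u' ∈ {u' | r u u'} then w u' else 0 : ℝ) : ℂ) = 1 := by rw [h5, Complex.ofReal_one]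
    rw [← h6, Complex.ofReal_sum]
    refine Finset.sum_congr rfl fun u' _ => ?_
    by_cases h : r u u'
    · rw [if_pos h, if_pos (show u' ∈ {u' | r u u'} from h)]
    · rw [if_neg h, if_neg (show ¬ u' ∈ {u' | r u u'} from h), Complex.ofReal_zero]
  have hS : ∑ b, ‖A b‖ ^ 2 = s := by
    apply Complex.ofReal_injective
    rw [Complex.ofReal_sum]
    have e1 : ∀ b, ((‖A b‖ ^ 2 : ℝ) : ℂ) = ∑ u, ∑ u', (w u : ℂ) * (w u' : ℂ) * (a u b * (starRingEnd ℂ) (a u' b)) := by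
      intro b
      rw [HBP_nm, hA]
      simp only []
      rw [map_sum, Finset.sum_mul_sum]
      refine Finset.sum_congr rfl fun u _ => Finset.sum_congr rfl fun u' _ => ?_
      rw [map_mul, Complex.conj_ofReal]
      ring
    rw [Finset.sum_congr rfl fun b _ => e1 b, Finset.sum_comm]
    have e2 : ∀ u, ∑ b, ∑ u', (w u : ℂ) * (w u' : ℂ) * (a u b * (starRingEnd ℂ) (a u' b)) = (w u : ℂ) * (c u : ℂ) := by
      intro u
      rw [Finset.sum_comm]
      have e3 : ∀ u', ∑ b, (w u : ℂ) * (w u' : ℂ) * (a u b * (starRingEnd ℂ) (a u' b)) =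
          (w u : ℂ) * (c u : ℂ) * (if r u u' then (w u' : ℂ) else 0) := by
        intro u'
        rw [← Finset.mul_sum, hin]
        by_cases h : r u u'
        · rw [if_pos h, if_pos h]
          ring
        · rw [if_neg h, if_neg h]
          ring
      rw [Finset.sum_congr rfl fun u' _ => e3 u', ← Finset.mul_sum, hw, mul_one]
    rw [Finset.sum_congr rfl fun u _ => e2 u, hs, Complex.ofReal_sum]
    exact Finset.sum_congr rfl fun u _ => (Complex.ofReal_mul _ _).symm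
  have hs1 : s ≤ 1 := by
    have h5 : ‖A b₀‖ ^ 2 ≤ ∑ b, ‖A b‖ ^ 2 :=
      Finset.single_le_sum (f := fun b => ‖A b‖ ^ 2) (fun b _ => by positivity) (Finset.mem_univ b₀)
    rw [hS, hAb, Complex.norm_real, Real.norm_eq_abs, abs_of_nonneg hs0] at h5
    nlinarith
  constructor
  · have h6 : ∑ b, ‖∑ u, (w u : ℂ) * a u b‖ ^ 2 = ∑ b, ‖A b‖ ^ 2 := by rw [hA]
    rw [h6, hS]
    exact hs1
  · have h6 : ∑ u, w u * ‖a u b₀‖ = s := by
      rw [hs]
      refine Finset.sum_congr rfl fun u _ => ?_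
      rw [hac, Complex.norm_real, Real.norm_eq_abs, abs_of_nonneg (hc0 u)]
    rw [h6]
    exact hs1

end Pool.Agent.BR
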